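import Mathlib

/-!
# Induced forests versus induced bipartite subgraphs

A 4-cycle joined by one edge to a complete graph on 27 vertices has `f = 5`, `b = 6` and average
local independence number `37 / 31 < 6 / 5`.
-/

namespace Pool.Agent.Results.MP_0f31da_co.ForestBipartite

/-- The maximum number of vertices of an induced subgraph that is a forest. -/
noncomputable def forestNum {V : Type} (G : SimpleGraph V) : ℕ :=
  sSup {k | ∃ S : Finset V, S.card = k ∧ (G.induce (S : Set V)).IsAcyclic}

/-- The maximum number of vertices of an induced subgraph that is bipartite. -/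
noncomputable def bipNum {V : Type} (G : SimpleGraph V) : ℕ :=
  sSup {k | ∃ S : Finset V, S.card = k ∧ (G.induce (S : Set V)).Colorable 2}

/-- The local independence number `l(v)`: the independence number of the subgraph induced on the
neighbours of `v`. -/
noncomputable def localIndep {V : Type} (G : SimpleGraph V) (v : V) : ℕ :=
  (G.induce (G.neighborSet v)).indepNum

/-- The average of `l(v)` over all vertices. -/
noncomputable def avgLocalIndep {V : Type} [Fintype V] (G : SimpleGraph V) : ℚ :=
  (∑ v : V, (localIndep G v : ℚ)) / Fintype.card V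

/-- The adjacency relation: `Fin 4` carries the 4-cycle, `Fin 27` the complete graph. -/
def adj : Fin 4 ⊕ Fin 27 → Fin 4 ⊕ Fin 27 → Bool
  | .inl i, .inl j => decide (j = i + 1) || decide (i = j + 1)
  | .inr i, .inr j => decide (i ≠ j)
  | .inl i, .inr j => decide (i = 0) && decide (j = 0)
  | .inr j, .inl i => decide (i = 0) && decide (j = 0)

/-- The graph. -/
def GG : SimpleGraph (Fin 4 ⊕ Fin 27) where
  Adj x y := adj x y = true
  symm := ⟨by decide +kernel⟩
  loopless := ⟨by decide +kernel⟩

instance : DecidableRel GG.Adj := fun x y => inferInstanceAs (Decidable (adj x y = true))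

theorem connected : GG.Connected := by
  have h0 : ∀ v, GG.Reachable (Sum.inl 0) v := by
    have h3 : GG.Adj (Sum.inl 0) (Sum.inr 0) := by decide
    rintro (i | j)
    · have h1 : GG.Adj (Sum.inl 0) (Sum.inl 1) := by decide
      have h2 : GG.Adj (Sum.inl 1) (Sum.inl 2) := by decide
      have h4 : GG.Adj (Sum.inl 0) (Sum.inl 3) := by decide
      fin_cases i
      · exact SimpleGraph.Reachable.refl _
      · exact h1.reachable
      · exact h1.reachable.trans h2.reachable
      · exact h4.reachable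
    · by_cases hj : j = 0
      · subst hj; exact h3.reachable
      · refine h3.reachable.trans (SimpleGraph.Adj.reachable ?_)
        show adj _ _ = true
        simp [adj, Ne.symm hj]
  exact { preconnected := fun u v => (h0 u).symm.trans (h0 v), nonempty := ⟨Sum.inl 0⟩ }

/-! ## Acyclic graphs contain no triangle and no 4-cycle -/

section acyclic

open SimpleGraph

theorem no_c4 {W : Type} {H : SimpleGraph W} (h : H.IsAcyclic) {a b c d : W} (h1 : H.Adj a b)
    (h2 : H.Adj b c) (h3 : H.Adj a d) (h4 : H.Adj d c) (hbd : b ≠ d) (hac : a ≠ c) : False := by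
  let p : H.Path a c := ⟨.cons h1 (.cons h2 .nil), by
    simp [Walk.cons_isPath_iff, h2.ne, h1.ne, hac]⟩
  let q : H.Path a c := ⟨.cons h3 (.cons h4 .nil), by
    simp [Walk.cons_isPath_iff, h4.ne, h3.ne, hac]⟩
  have hpq := (h.subsingleton_path a c).elim p q
  have h5 := congrArg (fun r : H.Path a c => r.1.support) hpq
  simp [p, q] at h5
  exact hbd h5

theorem no_tri {W : Type} {H : SimpleGraph W} (h : H.IsAcyclic) {a b c : W} (h1 : H.Adj a b)
    (h2 : H.Adj b c) (h3 : H.Adj a c) : False := by
  let p : H.Path a c := ⟨.cons h1 (.cons h2 .nil), by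
    simp [Walk.cons_isPath_iff, h2.ne, h1.ne, h3.ne]⟩
  let q : H.Path a c := ⟨.cons h3 .nil, by
    simp [Walk.cons_isPath_iff, h3.ne]⟩
  have hpq := (h.subsingleton_path a c).elim p q
  have h5 := congrArg (fun r : H.Path a c => r.1.support) hpq
  simp [p, q] at h5

end acyclic

theorem forest_card_le (S : Finset (Fin 4 ⊕ Fin 27))
    (hS : (GG.induce (S : Set (Fin 4 ⊕ Fin 27))).IsAcyclic) : S.card ≤ 5 := by
  have h1 : S.toLeft.card ≤ 3 := by
    by_contra hc
    push Not at hc
    have h4 : S.toLeft.card = Fintype.card (Fin 4) := by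
      have := Finset.card_le_univ S.toLeft
      simp at this ⊢
      omega
    have h5 : ∀ i, Sum.inl i ∈ S := by
      intro i
      have := (Finset.card_eq_iff_eq_univ _).1 h4
      have h6 : i ∈ S.toLeft := by rw [this]; exact Finset.mem_univ i
      simpa using h6
    refine no_c4 hS (a := ⟨Sum.inl 0, h5 0⟩) (b := ⟨Sum.inl 1, h5 1⟩) (c := ⟨Sum.inl 2, h5 2⟩)
      (d := ⟨Sum.inl 3, h5 3⟩) ?_ ?_ ?_ ?_ ?_ ?_
    · show GG.Adj (Sum.inl 0) (Sum.inl 1); decide
    · show GG.Adj (Sum.inl 1) (Sum.inl 2); decide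
    · show GG.Adj (Sum.inl 0) (Sum.inl 3); decide
    · show GG.Adj (Sum.inl 3) (Sum.inl 2); decide
    · simp
    · simp
  have h2 : S.toRight.card ≤ 2 := by
    by_contra hc
    push Not at hc
    obtain ⟨a, ha, b, hb, c, hc', hab, hac, hbc⟩ := Finset.two_lt_card.1 hc
    rw [Finset.mem_toRight] at ha hb hc'
    refine no_tri hS (a := ⟨Sum.inr a, ha⟩) (b := ⟨Sum.inr b, hb⟩) (c := ⟨Sum.inr c, hc'⟩)
      ?_ ?_ ?_
    · show adj _ _ = true; simp [adj, hab]
    · show adj _ _ = true; simp [adj, hbc]
    · show adj _ _ = true; simp [adj, hac]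
  have h3 := Finset.card_toLeft_add_card_toRight (u := S)
  omega

theorem forestNum_le : forestNum GG ≤ 5 := by
  refine csSup_le' ?_
  rintro k ⟨S, rfl, hS⟩
  exact forest_card_le S hS

/-- A colouring of the bipartite part. -/
def col : Fin 4 ⊕ Fin 27 → Fin 2
  | .inl i => if i.val % 2 = 0 then 0 else 1
  | .inr j => if j = 0 then 1 else 0

/-- The six vertices of the bipartite part. -/
def SB : Finset (Fin 4 ⊕ Fin 27) :=
  {.inl 0, .inl 1, .inl 2, .inl 3, .inr 0, .inr 1}

theorem le_bipNum : 6 ≤ bipNum GG := by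
  refine le_csSup ⟨Fintype.card (Fin 4 ⊕ Fin 27), ?_⟩ ⟨SB, by decide, ?_⟩
  · rintro k ⟨S, rfl, _⟩
    exact Finset.card_le_univ S
  · have h : ∀ x ∈ SB, ∀ y ∈ SB, adj x y = true → col x ≠ col y := by decide
    exact ⟨SimpleGraph.Coloring.mk (fun v => col v.1) (fun {v w} hvw => h v.1 v.2 w.1 w.2 hvw)⟩

/-- A partition of the neighbourhoods into cliques. -/
def phi : Fin 4 ⊕ Fin 27 → Fin 4 ⊕ Fin 27 → ℕ
  | .inl i, .inl j => if j = i + 1 then 0 else 1
  | .inl _, .inr _ => 2
  | .inr _, .inl _ => 1
  | .inr _, .inr _ => 0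

/-- The number of cliques used. -/
def LL : Fin 4 ⊕ Fin 27 → ℕ
  | .inl i => if i = 0 then 3 else 2
  | .inr j => if j = 0 then 2 else 1

theorem phi_lt : ∀ v x, adj v x = true → phi v x < LL v := by decide +kernel

theorem phi_adj : ∀ v x y, adj v x = true → adj v y = true → phi v x = phi v y → x ≠ y →
    adj x y = true := by decide +kernel

theorem localIndep_le (v : Fin 4 ⊕ Fin 27) : localIndep GG v ≤ LL v := by
  obtain ⟨s, hs⟩ := (GG.induce (GG.neighborSet v)).exists_isNIndepSet_indepNum
  rw [localIndep, ← hs.card_eq]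
  have h1 : s.card ≤ (Finset.range (LL v)).card := by
    refine Finset.card_le_card_of_injOn (fun x => phi v x.1) ?_ ?_
    · intro x _
      exact Finset.mem_coe.2 (Finset.mem_range.2 (phi_lt v x.1 x.2))
    · intro x hx y hy hxy
      by_contra hne
      have hne' : x.1 ≠ y.1 := fun h => hne (Subtype.ext h)
      exact hs.isIndepSet hx hy hne (phi_adj v x.1 y.1 x.2 y.2 hxy hne')
  simpa using h1

theorem one_le_localIndep : 1 ≤ localIndep GG (Sum.inl 0) := by
  have h : GG.Adj (Sum.inl 0) (Sum.inl 1) := by decide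
  have := SimpleGraph.IsIndepSet.card_le_indepNum (G := GG.induce (GG.neighborSet (Sum.inl 0)))
    (t := {⟨Sum.inl 1, h⟩}) (by simp [SimpleGraph.IsIndepSet])
  simpa [localIndep] using this

theorem sum_le : ∑ v, localIndep GG v ≤ 37 := by
  refine le_trans (Finset.sum_le_sum (fun v _ => localIndep_le v)) ?_
  decide

theorem avg_le : avgLocalIndep GG ≤ 37 / 31 := by
  have h : ((∑ v, localIndep GG v : ℕ) : ℚ) ≤ 37 := by exact_mod_cast sum_le
  have hc : (Fintype.card (Fin 4 ⊕ Fin 27) : ℚ) = 31 := by simp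
  rw [avgLocalIndep, hc]
  push_cast at h
  linarith

theorem avg_pos : 0 < avgLocalIndep GG := by
  have hc : (Fintype.card (Fin 4 ⊕ Fin 27) : ℚ) = 31 := by simp
  rw [avgLocalIndep, hc]
  have h1 : 1 ≤ ∑ v, localIndep GG v :=
    le_trans one_le_localIndep
      (Finset.single_le_sum (f := fun v => localIndep GG v) (fun _ _ => Nat.zero_le _)
        (Finset.mem_univ (Sum.inl 0)))
  have h2 : (1 : ℚ) ≤ ((∑ v, localIndep GG v : ℕ) : ℚ) := by exact_mod_cast h1
  push_cast at h2
  linarith

/-- **A connected graph with `f(G) < b(G) / average of l(v)`.** -/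
theorem result : ∃ (V : Type) (_ : Fintype V) (G : SimpleGraph V), G.Connected ∧
    2 ≤ Fintype.card V ∧ (forestNum G : ℚ) < (bipNum G : ℚ) / avgLocalIndep G := by
  refine ⟨Fin 4 ⊕ Fin 27, inferInstance, GG, connected, by simp, ?_⟩
  rw [lt_div_iff₀ avg_pos]
  have h1 : (forestNum GG : ℚ) ≤ 5 := by exact_mod_cast forestNum_le
  have h2 : (6 : ℚ) ≤ bipNum GG := by exact_mod_cast le_bipNum
  have h3 := avg_le
  have h4 := avg_pos
  nlinarith

end Pool.Agent.Results.MP_0f31da_co.ForestBipartite
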